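import Mathlib

set_option autoImplicit false

namespace Pool.Agent.TH402.TJ

open PowerSeries Finset

/-- The finite product `(1-X)(1-X^2)...(1-X^n)`. -/
noncomputable def e (n : ℕ) : ℤ⟦X⟧ := ∏ i ∈ range n, (1 - X ^ (i + 1))

/-- The geometric series `1/(1-X^k)`. -/
noncomputable def geo (k : ℕ) : ℤ⟦X⟧ := PowerSeries.mk fun n => if k ∣ n then 1 else 0

/-- The inverse of `e n`. -/
noncomputable def r (n : ℕ) : ℤ⟦X⟧ := ∏ i ∈ range n, geo (i + 1)

/-- Generating function of partitions. -/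
noncomputable def P : ℤ⟦X⟧ := PowerSeries.mk fun n => (Fintype.card (Nat.Partition n) : ℤ)

theorem one_sub_mul_geo (k : ℕ) (hk : 0 < k) : (1 - X ^ k) * geo k = 1 := by
  ext n
  rw [sub_mul, one_mul, map_sub, coeff_X_pow_mul', geo, coeff_mk, coeff_one]
  by_cases hn : k ≤ n
  · rw [if_pos hn, coeff_mk]
    have h0 : n ≠ 0 := by omega
    rw [if_neg h0]
    have : (k ∣ n - k) ↔ (k ∣ n) := by
      constructor
      · intro h
        have := Nat.dvd_add h (dvd_refl k)
        rwa [Nat.sub_add_cancel hn] at this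
      · intro h
        exact Nat.dvd_sub h (dvd_refl k)
    by_cases hd : k ∣ n
    · rw [if_pos hd, if_pos (this.mpr hd)]; simp
    · rw [if_neg hd, if_neg (fun h => hd (this.mp h))]; simp
  · rw [if_neg hn]
    by_cases h0 : n = 0
    · subst h0; simp
    · rw [if_neg h0, if_neg]
      · simp
      · intro h
        exact hn (Nat.le_of_dvd (Nat.pos_of_ne_zero h0) h)

theorem e_mul_r (n : ℕ) : e n * r n = 1 := by
  rw [e, r, ← Finset.prod_mul_distrib]
  exact Finset.prod_eq_one fun i _ => one_sub_mul_geo (i + 1) (Nat.succ_pos i)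

theorem e_succ (n : ℕ) : e (n + 1) = e n * (1 - X ^ (n + 1)) := by
  rw [e, Finset.prod_range_succ, ← e]

theorem r_eq (n : ℕ) : r n = (1 - X ^ (n + 1)) * r (n + 1) := by
  have h : r (n + 1) = r n * geo (n + 1) := by
    rw [r, Finset.prod_range_succ, ← r]
  rw [h]
  have := one_sub_mul_geo (n + 1) (Nat.succ_pos n)
  calc r n = r n * 1 := (mul_one _).symm
    _ = r n * ((1 - X ^ (n + 1)) * geo (n + 1)) := by rw [this]
    _ = _ := by ring

@[simp] theorem r_zero : r 0 = 1 := by simp [r]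
@[simp] theorem e_zero : e 0 = 1 := by simp [e]

/-- Nonnegative coefficients. -/
def NN (f : ℤ⟦X⟧) : Prop := ∀ n, 0 ≤ coeff n f

theorem NN.add {f g : ℤ⟦X⟧} (hf : NN f) (hg : NN g) : NN (f + g) := fun n => by
  rw [map_add]; exact add_nonneg (hf n) (hg n)

theorem NN.mul {f g : ℤ⟦X⟧} (hf : NN f) (hg : NN g) : NN (f * g) := fun n => by
  rw [coeff_mul]; exact Finset.sum_nonneg fun p _ => mul_nonneg (hf _) (hg _)

theorem NN.sum {s : Finset ℕ} {f : ℕ → ℤ⟦X⟧} (h : ∀ i ∈ s, NN (f i)) : NN (∑ i ∈ s, f i) :=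
  fun n => by rw [map_sum]; exact Finset.sum_nonneg fun i hi => h i hi n

theorem NN.X_pow (k : ℕ) : NN (X ^ k) := fun n => by
  rw [coeff_X_pow]; split_ifs <;> norm_num

theorem NN.one : NN 1 := fun n => by
  rw [coeff_one]; split_ifs <;> norm_num

theorem NN.geo (k : ℕ) : NN (geo k) := fun n => by
  rw [TJ.geo, coeff_mk]; split_ifs <;> norm_num

theorem NN.prod {f : ℕ → ℤ⟦X⟧} (s : Finset ℕ) (h : ∀ i ∈ s, NN (f i)) : NN (∏ i ∈ s, f i) := by
  classical
  induction s using Finset.induction_on with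
  | empty => simpa using NN.one
  | insert a s ha ih =>
    rw [Finset.prod_insert ha]
    exact (h a (Finset.mem_insert_self a s)).mul
      (ih fun i hi => h i (Finset.mem_insert_of_mem hi))

theorem NN.r (n : ℕ) : NN (r n) := NN.prod _ fun i _ => NN.geo (i + 1)

theorem NN.one_sub_X_mul_r (n : ℕ) : NN ((1 - X) * TJ.r (n + 1)) := by
  have h : (1 - X) * TJ.r (n + 1) = ∏ i ∈ range n, TJ.geo (i + 2) := by
    rw [TJ.r, Finset.prod_range_succ']
    have := one_sub_mul_geo 1 one_pos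
    rw [pow_one] at this
    calc (1 - X) * ((∏ k ∈ range n, TJ.geo (k + 1 + 1)) * TJ.geo (0 + 1))
        = (∏ k ∈ range n, TJ.geo (k + 1 + 1)) * ((1 - X) * TJ.geo 1) := by
          rw [zero_add]; ring
      _ = _ := by rw [this, mul_one]
  rw [h]
  exact NN.prod _ fun i _ => NN.geo _

theorem NN.P : NN P := fun n => by rw [TJ.P, coeff_mk]; positivity

/-! ### `P` as a limit of `r` -/

theorem dvd_r_sub (N M : ℕ) (h : N ≤ M) : (X : ℤ⟦X⟧) ^ (N + 1) ∣ r M - r N := by
  induction M, h using Nat.le_induction with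
  | base => simp
  | succ M hM ih =>
    have h1 : r (M + 1) - r N = (r M - r N) + X ^ (M + 1) * r (M + 1) := by
      rw [r_eq M]; ring
    rw [h1]
    exact dvd_add ih (dvd_mul_of_dvd_left (pow_dvd_pow X (by omega)) _)

theorem coeff_eq_of_dvd {f g : ℤ⟦X⟧} {N : ℕ} (h : (X : ℤ⟦X⟧) ^ (N + 1) ∣ f - g) {n : ℕ}
    (hn : n ≤ N) : coeff n f = coeff n g := by
  have := (X_pow_dvd_iff.mp h) n (by omega)
  rw [map_sub] at this
  linarith

open Classical PowerSeries.WithPiTopology in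
theorem coeff_P_eq (n : ℕ) : coeff n P = coeff n (r n) := by
  let _ : TopologicalSpace ℤ := ⊥
  have _ : DiscreteTopology ℤ := ⟨rfl⟩
  have h := Nat.Partition.hasProd_powerSeriesMk_card_restricted ℤ (fun _ => True)
  have hP : (PowerSeries.mk fun n => (#(Nat.Partition.restricted n (fun _ => True)) : ℤ)) = P := by
    ext n
    rw [coeff_mk, TJ.P, coeff_mk]
    congr 1
    simp [Nat.Partition.restricted]
  rw [hP] at h
  have hf : (fun i : ℕ => if True then ∑' j : ℕ, (X : ℤ⟦X⟧) ^ ((i + 1) * j) else 1)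
      = fun i => geo (i + 1) := by
    funext i
    rw [if_pos trivial]
    have h1 : (∑' j : ℕ, (X : ℤ⟦X⟧) ^ ((i + 1) * j)) * (1 - X ^ (i + 1)) = 1 := by
      simp_rw [pow_mul]
      exact tsum_pow_mul_one_sub_of_constantCoeff_eq_zero (by simp)
    have h2 := one_sub_mul_geo (i + 1) (Nat.succ_pos i)
    calc (∑' j : ℕ, (X : ℤ⟦X⟧) ^ ((i + 1) * j))
        = (∑' j : ℕ, (X : ℤ⟦X⟧) ^ ((i + 1) * j)) * ((1 - X ^ (i + 1)) * geo (i + 1)) := by
          rw [h2, mul_one]
      _ = ((∑' j : ℕ, (X : ℤ⟦X⟧) ^ ((i + 1) * j)) * (1 - X ^ (i + 1))) * geo (i + 1) := by ring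
      _ = geo (i + 1) := by rw [h1, one_mul]
  rw [hf] at h
  have h3 := h.tendsto_prod_nat
  rw [tendsto_iff_coeff_tendsto] at h3
  have h4 := h3 n
  rw [nhds_discrete, Filter.tendsto_pure] at h4
  obtain ⟨M, hM⟩ := Filter.eventually_atTop.mp h4
  have h5 := hM (max M n) (le_max_left _ _)
  rw [← h5]
  exact coeff_eq_of_dvd (dvd_r_sub n (max M n) (le_max_right _ _)) le_rfl

theorem dvd_P_sub (N M : ℕ) (h : N ≤ M) : (X : ℤ⟦X⟧) ^ (N + 1) ∣ P - r M := by
  rw [X_pow_dvd_iff]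
  intro n hn
  rw [map_sub, coeff_P_eq]
  have := coeff_eq_of_dvd (dvd_r_sub n M (by omega)) le_rfl
  rw [this, sub_self]

theorem dvd_e_mul_P_sub (N M : ℕ) (h : N ≤ M) : (X : ℤ⟦X⟧) ^ (N + 1) ∣ e M * P - 1 := by
  have h1 : e M * P - 1 = e M * (P - r M) := by
    rw [mul_sub, e_mul_r]
  rw [h1]
  exact dvd_mul_of_dvd_right (dvd_P_sub N M h) _

end Pool.Agent.TH402.TJ
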