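import Pool.Agent.TH402.TJ.Basic

set_option autoImplicit false

namespace Pool.Agent.TH402.TJ

open PowerSeries Finset

/-- Gaussian binomial coefficients as power series. -/
noncomputable def B (N s : ℕ) : ℤ⟦X⟧ := if s ≤ N then e N * r s * r (N - s) else 0

theorem B_zero (N : ℕ) : B N 0 = 1 := by
  rw [B, if_pos (Nat.zero_le _), r_zero, mul_one, Nat.sub_zero, e_mul_r]

theorem B_self (N : ℕ) : B N N = 1 := by
  rw [B, if_pos le_rfl, Nat.sub_self, r_zero, mul_one, e_mul_r]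

theorem B_succ (N s : ℕ) (h : s ≤ N) : B (N + 1) (s + 1) = B N (s + 1) + X ^ (N - s) * B N s := by
  rcases Nat.lt_or_ge s N with h1 | h1
  · rw [B, B, B, if_pos (by omega), if_pos (by omega), if_pos h]
    obtain ⟨d, rfl⟩ : ∃ d, N = s + 1 + d := ⟨N - (s + 1), by omega⟩
    have h2 : s + 1 + d + 1 - (s + 1) = d + 1 := by omega
    have h3 : s + 1 + d - (s + 1) = d := by omega
    have h4 : s + 1 + d - s = d + 1 := by omega
    rw [h2, h3, h4, e_succ, r_eq d, r_eq s]
    ring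
  · have h2 : s = N := le_antisymm h h1
    subst h2
    rw [B_self, B_self, B, if_neg (by omega), Nat.sub_self]
    ring

/-- Finite Durfee rectangle identity. -/
theorem durfee_fin (N : ℕ) : ∀ m : ℕ,
    ∑ s ∈ range (N + 1), X ^ (s * (s + m)) * B N s * r (s + m) = r (N + m) := by
  induction N with
  | zero =>
    intro m
    rw [zero_add, Finset.sum_range_one, B_zero]
    simp
  | succ N ih =>
    intro m
    rw [Finset.sum_range_succ']
    have h1 : ∀ s ∈ range (N + 1),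
        X ^ ((s + 1) * (s + 1 + m)) * B (N + 1) (s + 1) * r (s + 1 + m)
        = X ^ ((s + 1) * (s + 1 + m)) * B N (s + 1) * r (s + 1 + m)
          + X ^ (N + m + 1) * (X ^ (s * (s + (m + 1))) * B N s * r (s + (m + 1))) := by
      intro s hs
      have hs' : s ≤ N := by have := Finset.mem_range.mp hs; omega
      rw [B_succ N s hs']
      have h2 : (X : ℤ⟦X⟧) ^ ((s + 1) * (s + 1 + m)) * X ^ (N - s)
          = X ^ (N + m + 1) * X ^ (s * (s + (m + 1))) := by
        rw [← pow_add, ← pow_add]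
        congr 1
        obtain ⟨d, rfl⟩ : ∃ d, N = s + d := ⟨N - s, by omega⟩
        rw [Nat.add_sub_cancel_left]
        ring
      have h3 : s + 1 + m = s + (m + 1) := by ring
      rw [mul_add, add_mul]
      congr 1
      calc X ^ ((s + 1) * (s + 1 + m)) * (X ^ (N - s) * B N s) * r (s + 1 + m)
          = (X ^ ((s + 1) * (s + 1 + m)) * X ^ (N - s)) * B N s * r (s + 1 + m) := by ring
        _ = _ := by rw [h2, h3]; ring
    rw [Finset.sum_congr rfl h1, Finset.sum_add_distrib, ← Finset.mul_sum, ih (m + 1)]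
    have h4 : ∑ s ∈ range (N + 1), X ^ ((s + 1) * (s + 1 + m)) * B N (s + 1) * r (s + 1 + m)
        + X ^ (0 * (0 + m)) * B (N + 1) 0 * r (0 + m) = r (N + m) := by
      rw [B_zero, ← B_zero N,
        ← Finset.sum_range_succ' (fun s => X ^ (s * (s + m)) * B N s * r (s + m)) (N + 1),
        Finset.sum_range_succ, ih m]
      rw [B, if_neg (by omega)]
      ring
    have h5 : N + (m + 1) = N + m + 1 := by ring
    have h6 : N + 1 + m = N + m + 1 := by ring
    rw [h5, h6]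
    have h7 := r_eq (N + m)
    calc _ = (∑ s ∈ range (N + 1), X ^ ((s + 1) * (s + 1 + m)) * B N (s + 1) * r (s + 1 + m)
        + X ^ (0 * (0 + m)) * B (N + 1) 0 * r (0 + m)) + X ^ (N + m + 1) * r (N + m + 1) := by ring
      _ = r (N + m + 1) := by rw [h4, h7]; ring

theorem dvd_e_mul_r_sub (N k M : ℕ) (h1 : N ≤ k) (h2 : k ≤ M) :
    (X : ℤ⟦X⟧) ^ (N + 1) ∣ e M * r k - 1 := by
  have h : e M * r k - 1 = -(e M * (r M - r k)) := by
    rw [mul_sub, e_mul_r]; ring
  rw [h, dvd_neg]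
  exact dvd_mul_of_dvd_right ((pow_dvd_pow X (by omega)).trans (dvd_r_sub k M h2)) _

theorem dvd_sum_sub_sum (N : ℕ) (s : Finset ℕ) (f g : ℕ → ℤ⟦X⟧)
    (h : ∀ i ∈ s, (X : ℤ⟦X⟧) ^ N ∣ f i - g i) : (X : ℤ⟦X⟧) ^ N ∣ ∑ i ∈ s, f i - ∑ i ∈ s, g i := by
  rw [← Finset.sum_sub_distrib]
  exact Finset.dvd_sum h

/-- Durfee rectangle identity modulo `X^(N+1)`. -/
theorem durfee (N m : ℕ) :
    (X : ℤ⟦X⟧) ^ (N + 1) ∣ ∑ s ∈ range (N + 1), X ^ (s * (s + m)) * r s * r (s + m) - P := by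
  have hfin := durfee_fin (2 * N) m
  have h1 : (X : ℤ⟦X⟧) ^ (N + 1) ∣ P - r (2 * N + m) := dvd_P_sub N _ (by omega)
  have h2 : (X : ℤ⟦X⟧) ^ (N + 1) ∣
      ∑ s ∈ range (N + 1), X ^ (s * (s + m)) * r s * r (s + m)
      - ∑ s ∈ range (N + 1), X ^ (s * (s + m)) * B (2 * N) s * r (s + m) := by
    apply dvd_sum_sub_sum
    intro s hs
    have hs' : s ≤ N := by have := Finset.mem_range.mp hs; omega
    have h3 : X ^ (s * (s + m)) * r s * r (s + m) - X ^ (s * (s + m)) * B (2 * N) s * r (s + m)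
        = -(X ^ (s * (s + m)) * r s * r (s + m)) * (e (2 * N) * r (2 * N - s) - 1) := by
      rw [B, if_pos (by omega)]; ring
    rw [h3]
    exact dvd_mul_of_dvd_right (dvd_e_mul_r_sub N _ _ (by omega) (by omega)) _
  have h3 : (X : ℤ⟦X⟧) ^ (N + 1) ∣
      ∑ s ∈ range (2 * N + 1), X ^ (s * (s + m)) * B (2 * N) s * r (s + m)
      - ∑ s ∈ range (N + 1), X ^ (s * (s + m)) * B (2 * N) s * r (s + m) := by
    rw [← Finset.sum_sdiff (Finset.range_subset_range.mpr (by omega : N + 1 ≤ 2 * N + 1)),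
      add_sub_cancel_right]
    apply Finset.dvd_sum
    intro s hs
    rw [Finset.mem_sdiff, Finset.mem_range, Finset.mem_range] at hs
    have h4 : N + 1 ≤ s * (s + m) := by nlinarith [hs.2]
    rw [mul_assoc]
    exact dvd_mul_of_dvd_left (pow_dvd_pow X h4) _
  rw [hfin] at h3
  have h4 : ∑ s ∈ range (N + 1), X ^ (s * (s + m)) * r s * r (s + m) - P
      = (∑ s ∈ range (N + 1), X ^ (s * (s + m)) * r s * r (s + m)
      - ∑ s ∈ range (N + 1), X ^ (s * (s + m)) * B (2 * N) s * r (s + m))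
      - (r (2 * N + m) - ∑ s ∈ range (N + 1), X ^ (s * (s + m)) * B (2 * N) s * r (s + m))
      - (P - r (2 * N + m)) := by ring
  rw [h4]
  exact dvd_sub (dvd_sub h2 h3) h1

end Pool.Agent.TH402.TJ
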