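import Pool.Agent.TH402.TJ.Durfee

set_option autoImplicit false

namespace Pool.Agent.TH402.TJ

open PowerSeries Finset

/-- Triangular numbers. -/
def T (j : ℕ) : ℕ := j * (j + 1) / 2

theorem T_succ (j : ℕ) : T (j + 1) = T j + (j + 1) := by
  have h1 : (j + 1) * (j + 1 + 1) = j * (j + 1) + 2 * (j + 1) := by ring
  rw [T, T, h1, Nat.add_mul_div_left _ _ (by norm_num : 0 < 2)]

theorem T_zero : T 0 = 0 := rfl

theorem le_T (j : ℕ) : j ≤ T j := by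
  induction j with
  | zero => exact Nat.zero_le _
  | succ j ih => rw [T_succ]; omega

/-- Terms of the finite Jacobi identity. -/
noncomputable def a (n j : ℕ) : ℤ⟦X⟧ :=
  if j ≤ n then (-1) ^ j * X ^ (T j) * e (2 * n + 1) * r (n - j) * r (n + 1 + j) else 0

theorem a_eq (n j : ℕ) (h : j ≤ n) :
    a n j = (-1) ^ j * X ^ (T j) * e (2 * n + 1) * r (n - j) * r (n + 1 + j) := by
  rw [a, if_pos h]

theorem a_gt (n j : ℕ) (h : n < j) : a n j = 0 := by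
  rw [a, if_neg (by omega)]

theorem a_succ (n i : ℕ) :
    a (n + 1) (i + 1) = (1 + X ^ (2 * n + 2)) * a n (i + 1) - X ^ (n + 1) * (a n i + a n (i + 2)) := by
  have he : e (2 * (n + 1) + 1) = e (2 * n + 1) * (1 - X ^ (2 * n + 2)) * (1 - X ^ (2 * n + 3)) := by
    have h1 : 2 * (n + 1) + 1 = 2 * n + 2 + 1 := by ring
    rw [h1, e_succ, e_succ]
  rcases Nat.lt_or_ge n i with h | h
  · rw [a_gt _ _ (by omega), a_gt _ _ (by omega), a_gt _ _ (by omega), a_gt _ _ (by omega)]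
    ring
  rcases Nat.eq_or_lt_of_le h with h | h
  · subst h
    rw [a_gt i (i + 1) (by omega), a_gt i (i + 2) (by omega), a_eq _ _ le_rfl, a_eq _ _ le_rfl,
      Nat.sub_self, Nat.sub_self, r_zero, T_succ]
    have h1 : i + 1 + 1 + (i + 1) = 2 * (i + 1) + 1 := by ring
    have h2 : i + 1 + i = 2 * i + 1 := by ring
    rw [h1, h2]
    have h3 := e_mul_r (2 * (i + 1) + 1)
    have h4 := e_mul_r (2 * i + 1)
    calc (-1) ^ (i + 1) * X ^ (T i + (i + 1)) * e (2 * (i + 1) + 1) * 1 * r (2 * (i + 1) + 1)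
        = (-1) ^ (i + 1) * X ^ (T i + (i + 1)) * (e (2 * (i + 1) + 1) * r (2 * (i + 1) + 1)) := by
          ring
      _ = (1 + X ^ (2 * i + 2)) * 0
          - X ^ (i + 1) * ((-1) ^ i * X ^ T i * (e (2 * i + 1) * r (2 * i + 1)) + 0) := by
          rw [h3, h4]; ring
      _ = _ := by ring
  rcases Nat.eq_or_lt_of_le h with h | h
  · have h' : n = i + 1 := h.symm
    subst h'
    rw [a_gt (i + 1) (i + 2) (by omega), a_eq _ _ (by omega), a_eq _ _ le_rfl, a_eq _ _ (by omega),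
      Nat.sub_self, r_zero, T_succ, he]
    have h1 : i + 1 + 1 - (i + 1) = 1 := by omega
    have h2 : i + 1 - i = 1 := by omega
    have h3 : i + 1 + 1 + 1 + (i + 1) = 2 * i + 3 + 1 := by ring
    have h4 : i + 1 + 1 + (i + 1) = 2 * i + 2 + 1 := by ring
    have h5 : i + 1 + 1 + i = 2 * i + 2 := by ring
    rw [h1, h2, h3, h4, h5, r_eq (2 * i + 2), r_eq (2 * i + 2 + 1)]
    have h6 := r_eq 0
    rw [r_zero, zero_add, pow_one] at h6
    have h7 : 2 * i + 2 + 1 + 1 = 2 * i + 3 + 1 := by ring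
    rw [h7]
    have h8 : (-1 : ℤ⟦X⟧) ^ (i + 1) * X ^ (T i + (i + 1)) * e (2 * (i + 1) + 1) * 1
        * ((1 - X ^ (2 * i + 3 + 1)) * r (2 * i + 3 + 1))
        = (-1 : ℤ⟦X⟧) ^ (i + 1) * X ^ (T i + (i + 1)) * e (2 * (i + 1) + 1) * ((1 - X) * r 1)
        * ((1 - X ^ (2 * i + 3 + 1)) * r (2 * i + 3 + 1)) := by
      rw [← h6]
    rw [h8]
    ring
  · obtain ⟨d, rfl⟩ : ∃ d, n = i + 2 + d := ⟨n - (i + 2), by omega⟩
    rw [a_eq _ _ (by omega), a_eq _ _ (by omega), a_eq _ _ (by omega), a_eq _ _ (by omega),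
      T_succ (i + 1), T_succ i, he]
    have h1 : i + 2 + d + 1 - (i + 1) = d + 1 + 1 := by omega
    have h2 : i + 2 + d - (i + 1) = d + 1 := by omega
    have h3 : i + 2 + d - i = d + 1 + 1 := by omega
    have h4 : i + 2 + d - (i + 2) = d := by omega
    have h5 : i + 2 + d + 1 + 1 + (i + 1) = 2 * i + d + 3 + 1 + 1 := by ring
    have h6 : i + 2 + d + 1 + (i + 1) = 2 * i + d + 3 + 1 := by ring
    have h7 : i + 2 + d + 1 + i = 2 * i + d + 3 := by ring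
    have h8 : i + 2 + d + 1 + (i + 2) = 2 * i + d + 3 + 1 + 1 := by ring
    rw [h1, h2, h3, h4, h5, h6, h7, h8, r_eq d, r_eq (d + 1), r_eq (2 * i + d + 3),
      r_eq (2 * i + d + 3 + 1)]
    ring

theorem a_zero (n : ℕ) :
    a (n + 1) 0 = (1 + X ^ (2 * n + 2)) * a n 0 + X ^ (n + 1) * a n 0 - X ^ (n + 1) * a n 1 := by
  have he : e (2 * (n + 1) + 1) = e (2 * n + 1) * (1 - X ^ (2 * n + 2)) * (1 - X ^ (2 * n + 3)) := by
    have h1 : 2 * (n + 1) + 1 = 2 * n + 2 + 1 := by ring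
    rw [h1, e_succ, e_succ]
  rcases Nat.eq_zero_or_pos n with h | h
  · subst h
    rw [a_gt 0 1 (by omega), a_eq _ _ (by omega), a_eq _ _ (by omega), T_zero, he]
    simp only [Nat.sub_self, Nat.sub_zero, zero_add, mul_zero, add_zero]
    have h3 : r (1 + 1) * (1 - X ^ 2) = r 1 := by rw [r_eq 1]; ring
    have h4 := e_mul_r 1
    have h6 := r_eq 0
    rw [r_zero, zero_add, pow_one] at h6
    rw [r_zero]
    calc (-1 : ℤ⟦X⟧) ^ 0 * X ^ 0 * (e 1 * (1 - X ^ 2) * (1 - X ^ 3)) * r 1 * r (1 + 1)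
        = (1 - X ^ 3) * (r (1 + 1) * (1 - X ^ 2)) * (e 1 * r 1) := by ring
      _ = (1 + X + X ^ 2) * ((1 - X) * r 1) * (e 1 * r 1) := by rw [h3]; ring
      _ = (1 + X + X ^ 2) * (e 1 * r 1) := by rw [← h6]; ring
      _ = _ := by ring
  · obtain ⟨d, rfl⟩ : ∃ d, n = d + 1 := ⟨n - 1, by omega⟩
    rw [a_eq _ _ (by omega), a_eq _ _ (by omega), a_eq _ _ (by omega), T_succ, T_zero, he]
    have h1 : d + 1 + 1 - 0 = d + 1 + 1 := rfl
    have h2 : d + 1 - 0 = d + 1 := rfl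
    have h3 : d + 1 - 1 = d := by omega
    have h5 : d + 1 + 1 + 1 + 0 = d + 1 + 1 + 1 := rfl
    have h6 : d + 1 + 1 + 0 = d + 1 + 1 := rfl
    have h7 : d + 1 + 1 + 1 = d + 1 + 1 + 1 := rfl
    rw [h1, h2, h3, h5, h6, r_eq d, r_eq (d + 1)]
    have h8 := r_eq (d + 1 + 1)
    calc (-1 : ℤ⟦X⟧) ^ 0 * X ^ 0 * (e (2 * (d + 1) + 1) * (1 - X ^ (2 * (d + 1) + 2))
          * (1 - X ^ (2 * (d + 1) + 3))) * r (d + 1 + 1) * r (d + 1 + 1 + 1)
        = (1 + X ^ (2 * (d + 1) + 2)) * ((-1) ^ 0 * X ^ 0 * e (2 * (d + 1) + 1)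
            * ((1 - X ^ (d + 1 + 1)) * r (d + 1 + 1)) * ((1 - X ^ (d + 1 + 1 + 1)) * r (d + 1 + 1 + 1)))
          + X ^ (d + 1 + 1) * ((-1) ^ 0 * X ^ 0 * e (2 * (d + 1) + 1)
            * ((1 - X ^ (d + 1 + 1)) * r (d + 1 + 1)) * ((1 - X ^ (d + 1 + 1 + 1)) * r (d + 1 + 1 + 1)))
          - X ^ (d + 1 + 1) * ((-1) ^ 1 * X ^ (0 + (0 + 1)) * e (2 * (d + 1) + 1)
            * ((1 - X ^ (d + 1)) * ((1 - X ^ (d + 1 + 1)) * r (d + 1 + 1))) * r (d + 1 + 1 + 1)) := by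
          ring
      _ = _ := by rw [← h8]

theorem sum_shift (c q : ℤ⟦X⟧) (a b : ℕ → ℤ⟦X⟧) (h0 : b 0 = c * a 0 + q * a 0 - q * a 1)
    (h : ∀ j, b (j + 1) = c * a (j + 1) - q * (a j + a (j + 2))) (M : ℕ) :
    ∑ j ∈ range (M + 1), (2 * (j : ℤ⟦X⟧) + 1) * b j
      = (c - 2 * q) * ∑ j ∈ range (M + 1), (2 * (j : ℤ⟦X⟧) + 1) * a j
        + q * ((2 * (M : ℤ⟦X⟧) + 3) * a M - (2 * (M : ℤ⟦X⟧) + 1) * a (M + 1)) := by
  induction M with
  | zero =>
    simp only [zero_add, Finset.sum_range_one, Nat.cast_zero, h0]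
    ring
  | succ M ih =>
    rw [Finset.sum_range_succ, ih, Finset.sum_range_succ _ (M + 1), h]
    push_cast
    ring

/-- Finite form of Jacobi's identity. -/
theorem jacobi_fin (n : ℕ) :
    ∑ j ∈ range (n + 1), (2 * (j : ℤ⟦X⟧) + 1) * a n j = e n ^ 2 := by
  induction n with
  | zero =>
    rw [zero_add, Finset.sum_range_one, a_eq 0 0 le_rfl, T_zero]
    simp only [Nat.sub_self, mul_zero, zero_add, add_zero, r_zero, e_zero]
    have := e_mul_r 1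
    push_cast
    calc (2 * 0 + 1) * ((-1 : ℤ⟦X⟧) ^ 0 * X ^ 0 * e 1 * 1 * r 1) = e 1 * r 1 := by ring
      _ = _ := by rw [this]; ring
  | succ n ih =>
    rw [sum_shift (1 + X ^ (2 * n + 2)) (X ^ (n + 1)) (a n) (a (n + 1)) (a_zero n) (a_succ n),
      Finset.sum_range_succ, ih, a_gt n (n + 1) (by omega), a_gt n (n + 1 + 1) (by omega), e_succ]
    ring

/-- Jacobi's identity modulo `X^(N+1)`: the truncated theta series times `P^3` is `1`. -/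
theorem jacobi (N : ℕ) :
    (X : ℤ⟦X⟧) ^ (N + 1) ∣
      (∑ j ∈ range (N + 1), (-1) ^ j * (2 * (j : ℤ⟦X⟧) + 1) * X ^ (T j)) * P ^ 3 - 1 := by
  have hfin := jacobi_fin (2 * N)
  -- step 1: cut the finite identity
  have h1 : (X : ℤ⟦X⟧) ^ (N + 1) ∣
      ∑ j ∈ range (2 * N + 1), (2 * (j : ℤ⟦X⟧) + 1) * a (2 * N) j
      - ∑ j ∈ range (N + 1), (2 * (j : ℤ⟦X⟧) + 1) * a (2 * N) j := by
    rw [← Finset.sum_sdiff (Finset.range_subset_range.mpr (by omega : N + 1 ≤ 2 * N + 1)),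
      add_sub_cancel_right]
    apply Finset.dvd_sum
    intro s hs
    rw [Finset.mem_sdiff, Finset.mem_range, Finset.mem_range] at hs
    rw [a_eq _ _ (by omega)]
    have h4 : N + 1 ≤ T s := le_trans (by omega) (le_T s)
    have h5 : (2 * (s : ℤ⟦X⟧) + 1) * ((-1) ^ s * X ^ (T s) * e (2 * (2 * N) + 1) * r (2 * N - s)
        * r (2 * N + 1 + s))
        = X ^ (T s) * ((2 * (s : ℤ⟦X⟧) + 1) * ((-1) ^ s * e (2 * (2 * N) + 1) * r (2 * N - s)
        * r (2 * N + 1 + s))) := by ring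
    rw [h5]
    exact dvd_mul_of_dvd_left (pow_dvd_pow X h4) _
  have h2 : (X : ℤ⟦X⟧) ^ (N + 1) ∣
      ∑ j ∈ range (N + 1), (-1) ^ j * (2 * (j : ℤ⟦X⟧) + 1) * X ^ (T j) * P
      - ∑ j ∈ range (N + 1), (2 * (j : ℤ⟦X⟧) + 1) * a (2 * N) j := by
    apply dvd_sum_sub_sum
    intro s hs
    have hs' : s ≤ N := by have := Finset.mem_range.mp hs; omega
    rw [a_eq _ _ (by omega)]
    have h3 : (-1) ^ s * (2 * (s : ℤ⟦X⟧) + 1) * X ^ (T s) * P
        - (2 * (s : ℤ⟦X⟧) + 1) * ((-1) ^ s * X ^ (T s) * e (2 * (2 * N) + 1) * r (2 * N - s)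
        * r (2 * N + 1 + s))
        = (-1) ^ s * (2 * (s : ℤ⟦X⟧) + 1) * X ^ (T s) * ((P - r (2 * N - s))
          - r (2 * N - s) * (e (2 * (2 * N) + 1) * r (2 * N + 1 + s) - 1)) := by ring
    rw [h3]
    exact dvd_mul_of_dvd_right (dvd_sub (dvd_P_sub N _ (by omega))
      (dvd_mul_of_dvd_right (dvd_e_mul_r_sub N _ _ (by omega) (by omega)) _)) _
  rw [hfin] at h1
  rw [← Finset.sum_mul] at h2
  set S := ∑ j ∈ range (N + 1), (-1) ^ j * (2 * (j : ℤ⟦X⟧) + 1) * X ^ (T j) with hS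
  set A := ∑ j ∈ range (N + 1), (2 * (j : ℤ⟦X⟧) + 1) * a (2 * N) j with hA
  have h3 := dvd_e_mul_P_sub N (2 * N) (by omega)
  have h4 : S * P ^ 3 - 1 = (S * P - A) * P ^ 2 - (e (2 * N) ^ 2 - A) * P ^ 2
      + (e (2 * N) * P - 1) * (e (2 * N) * P + 1) := by ring
  rw [h4]
  exact dvd_add (dvd_sub (dvd_mul_of_dvd_left h2 _) (dvd_mul_of_dvd_left h1 _))
    (dvd_mul_of_dvd_left h3 _)

end Pool.Agent.TH402.TJ
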