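import Pool.Agent.TH402.TJ.Jacobi

set_option autoImplicit false

namespace Pool.Agent.TH402.TJ

open PowerSeries Finset

/-- Summands of `G`. -/
noncomputable def u (m s : ℕ) : ℤ⟦X⟧ := X ^ ((s + 1) * (s + m)) * r s * r (s + m)

/-- `G m` counts partitions having some `i ≥ 1` with `i`-th part equal to `i + m - 1`. -/
noncomputable def G (m : ℕ) : ℤ⟦X⟧ :=
  PowerSeries.mk fun n => coeff n (∑ s ∈ range (n + 1), u m s)

theorem u_dvd (m s : ℕ) (hs : 1 ≤ s) : (X : ℤ⟦X⟧) ^ (s + 1) ∣ u m s := by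
  rw [u, mul_assoc]
  exact dvd_mul_of_dvd_left (pow_dvd_pow X (by nlinarith)) _

theorem coeff_zero_of_dvd {f : ℤ⟦X⟧} {N n : ℕ} (h : (X : ℤ⟦X⟧) ^ N ∣ f) (hn : n < N) :
    coeff n f = 0 := (X_pow_dvd_iff.mp h) n hn

theorem coeff_G (m n M : ℕ) (h : n < M) : coeff n (G m) = coeff n (∑ s ∈ range M, u m s) := by
  rw [G, coeff_mk]
  induction M, h using Nat.le_induction with
  | base => rfl
  | succ M hM ih =>
    rw [ih, Finset.sum_range_succ _ M, map_add, coeff_zero_of_dvd (u_dvd m M (by omega)) (by omega),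
      add_zero]

theorem coeff_X_pow_mul_G (m k n M : ℕ) (h : n < M) :
    coeff n (X ^ k * G m) = coeff n (X ^ k * ∑ s ∈ range M, u m s) := by
  rw [coeff_X_pow_mul', coeff_X_pow_mul']
  split_ifs with h1
  · exact coeff_G m (n - k) M (by omega)
  · rfl

theorem G_add (m : ℕ) : G m + X ^ m * G (m + 1) = X ^ m * P := by
  ext n
  rw [map_add, coeff_G m n (n + 1) (Nat.lt_succ_self n),
    coeff_X_pow_mul_G (m + 1) m n (n + 1) (Nat.lt_succ_self n), ← map_add]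
  have h1 : ∑ s ∈ range (n + 1), u m s + X ^ m * ∑ s ∈ range (n + 1), u (m + 1) s
      = X ^ m * ∑ s ∈ range (n + 1), X ^ (s * (s + (m + 1))) * r s * r (s + (m + 1)) := by
    rw [Finset.mul_sum, Finset.mul_sum, ← Finset.sum_add_distrib]
    apply Finset.sum_congr rfl
    intro s _
    rw [u, u, r_eq (s + m)]
    have h2 : s + (m + 1) = s + m + 1 := by ring
    rw [h2]
    have h3 : (s + 1) * (s + m) = s * (s + m + 1) + m := by ring
    have h4 : (s + 1) * (s + m + 1) = s * (s + m + 1) + (s + m + 1) := by ring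
    rw [h3, h4]
    ring
  rw [h1]
  apply coeff_eq_of_dvd (N := n) _ le_rfl
  rw [← mul_sub]
  exact dvd_mul_of_dvd_right (durfee n (m + 1)) _

/-- Telescoping terms. -/
noncomputable def v (m s : ℕ) : ℤ⟦X⟧ := u m s * (1 - X ^ s)

theorem u_sub (m s : ℕ) :
    u m s - u (m + 1) s = (1 - X) * X ^ s * u m s + (v m s - v m (s + 1)) := by
  rw [v, v, u, u, u, r_eq (s + m), r_eq s]
  have h1 : s + 1 + m = s + m + 1 := by ring
  have h2 : s + (m + 1) = s + m + 1 := by ring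
  rw [h1, h2]
  have h3 : (s + 1) * (s + m + 1) = (s + 1) * (s + m) + (s + 1) := by ring
  have h4 : (s + 1 + 1) * (s + m + 1) = (s + 1) * (s + m) + (s + m + s + 2) := by ring
  rw [h3, h4]
  ring

theorem sum_u_sub (m M : ℕ) :
    ∑ s ∈ range M, u m s - ∑ s ∈ range M, u (m + 1) s
      = ∑ s ∈ range M, (1 - X) * X ^ s * u m s - v m M := by
  have hv : v m 0 = 0 := by rw [v]; simp
  rw [← Finset.sum_sub_distrib, Finset.sum_congr rfl (fun s _ => u_sub m s),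
    Finset.sum_add_distrib, Finset.sum_range_sub', hv]
  ring

theorem coeff_G_sub (m n M : ℕ) (h : n < M) :
    coeff n (G m - G (m + 1)) = coeff n (∑ s ∈ range M, (1 - X) * X ^ s * u m s) := by
  rw [map_sub, coeff_G m n M h, coeff_G (m + 1) n M h, ← map_sub, sum_u_sub, map_sub]
  have : coeff n (v m M) = 0 := by
    apply coeff_zero_of_dvd (N := M + 1) _ (by omega)
    rw [v]
    exact dvd_mul_of_dvd_left (u_dvd m M (by omega)) _
  rw [this, sub_zero]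

theorem NN_term (m s : ℕ) (h : 1 ≤ s + m) : NN ((1 - X) * X ^ s * u m s) := by
  obtain ⟨k, hk⟩ : ∃ k, s + m = k + 1 := ⟨s + m - 1, by omega⟩
  rw [u, hk]
  have : (1 - X) * X ^ s * (X ^ ((s + 1) * (k + 1)) * r s * r (k + 1))
      = X ^ s * X ^ ((s + 1) * (k + 1)) * r s * ((1 - X) * r (k + 1)) := by ring
  rw [this]
  exact (((NN.X_pow _).mul (NN.X_pow _)).mul (NN.r s)).mul (NN.one_sub_X_mul_r k)

theorem NN_G_sub (m : ℕ) (hm : 1 ≤ m) : NN (G m - G (m + 1)) := by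
  intro n
  rw [coeff_G_sub m n (n + 1) (Nat.lt_succ_self n)]
  exact NN.sum (fun s _ => NN_term m s (by omega)) n

theorem NN_G (m : ℕ) : NN (G m) := by
  intro n
  rw [coeff_G m n (n + 1) (Nat.lt_succ_self n)]
  exact NN.sum (fun s _ => ((NN.X_pow _).mul (NN.r _)).mul (NN.r _)) n

theorem NN_G_zero_sub : NN (G 0 - G 2) := by
  intro n
  have h1 : G 0 - G 2 = (G 0 - G (0 + 1)) + (G 1 - G (1 + 1)) := by ring
  rw [h1, map_add, coeff_G_sub 0 n (n + 1) (Nat.lt_succ_self n),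
    coeff_G_sub 1 n (n + 1) (Nat.lt_succ_self n), ← map_add,
    Finset.sum_range_succ' _ n, Finset.sum_range_succ' _ n]
  have h2 : (1 - X) * X ^ 0 * u 0 0 + (1 - X) * X ^ 0 * u 1 0 = 1 := by
    have h6 := r_eq 0
    rw [r_zero, zero_add, pow_one] at h6
    rw [u, u]
    simp only [r_zero]
    calc (1 - X) * X ^ 0 * (X ^ ((0 + 1) * (0 + 0)) * 1 * r (0 + 0))
          + (1 - X) * X ^ 0 * (X ^ ((0 + 1) * (0 + 1)) * 1 * r (0 + 1))
        = (1 - X) * r 0 + X * ((1 - X) * r 1) := by ring_nf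
      _ = 1 := by rw [← h6, r_zero]; ring
  have h3 : ∑ k ∈ range n, (1 - X) * X ^ (k + 1) * u 0 (k + 1) + (1 - X) * X ^ 0 * u 0 0
      + (∑ k ∈ range n, (1 - X) * X ^ (k + 1) * u 1 (k + 1) + (1 - X) * X ^ 0 * u 1 0)
      = ∑ k ∈ range n, (1 - X) * X ^ (k + 1) * u 0 (k + 1)
        + ∑ k ∈ range n, (1 - X) * X ^ (k + 1) * u 1 (k + 1) + 1 := by
    linear_combination h2
  rw [h3]
  exact (((NN.sum fun s _ => NN_term 0 (s + 1) (by omega)).add
    (NN.sum fun s _ => NN_term 1 (s + 1) (by omega))).add NN.one) n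

theorem NN_P_sub (m : ℕ) : NN (P - 2 * G (m + 2)) := by
  induction m with
  | zero =>
    have h0 : P = G 0 + G 1 := by
      have := G_add 0
      rw [pow_zero, one_mul, one_mul, zero_add] at this
      exact this.symm
    have h1 : P - 2 * G (0 + 2) = (G 0 - G 2) + (G 1 - G (1 + 1)) := by
      rw [h0]; ring
    rw [h1]
    exact NN_G_zero_sub.add (NN_G_sub 1 le_rfl)
  | succ m ih =>
    have h1 : P - 2 * G (m + 1 + 2) = (P - 2 * G (m + 2)) + ((G (m + 2) - G (m + 2 + 1))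
        + (G (m + 2) - G (m + 2 + 1))) := by ring
    rw [h1]
    exact ih.add ((NN_G_sub _ (by omega)).add (NN_G_sub _ (by omega)))

/-- The alternating tails `h j = X^{T j} G (j+1)`. -/
noncomputable def h (j : ℕ) : ℤ⟦X⟧ := X ^ (T j) * G (j + 1)

theorem h_add (j : ℕ) : h j + h (j + 1) = X ^ (T (j + 1)) * P := by
  rw [h, h, T_succ, pow_add]
  calc X ^ T j * G (j + 1) + X ^ T j * X ^ (j + 1) * G (j + 1 + 1)
      = X ^ T j * (G (j + 1) + X ^ (j + 1) * G (j + 1 + 1)) := by ring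
    _ = _ := by rw [G_add]; ring

theorem NN_h_sub (j : ℕ) : NN (h j - h (j + 1)) := by
  have h1 : h j - h (j + 1) = X ^ (T (j + 1)) * (P - 2 * G (j + 2)) := by
    have h2 := h_add j
    have h3 : h (j + 1) = X ^ (T (j + 1)) * G (j + 2) := rfl
    calc h j - h (j + 1) = (h j + h (j + 1)) - 2 * h (j + 1) := by ring
      _ = _ := by rw [h2, h3]; ring
  rw [h1]
  exact (NN.X_pow _).mul (NN_P_sub j)

/-- Truncated theta series. -/
noncomputable def J (k : ℕ) : ℤ⟦X⟧ :=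
  ∑ j ∈ range (k + 1), (-1) ^ j * (2 * (j : ℤ⟦X⟧) + 1) * X ^ (T j)

theorem J_succ (k : ℕ) : J (k + 1) = J k + (-1) ^ (k + 1) * (2 * (k : ℤ⟦X⟧) + 3) * X ^ (T (k + 1)) := by
  rw [J, Finset.sum_range_succ, ← J]
  push_cast
  ring

theorem J_telescope (k M : ℕ) :
    (-1) ^ k * J k * P = (-1) ^ k * J (k + 2 * M) * P + (2 * (k : ℤ⟦X⟧) + 1) * h k
      + 2 * ∑ i ∈ range M, (h (k + 2 * i) - h (k + 2 * i + 1))
      - (2 * ((k : ℤ⟦X⟧) + 2 * M) + 1) * h (k + 2 * M) := by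
  induction M with
  | zero => simp
  | succ M ih =>
    rw [Finset.sum_range_succ]
    have h1 : k + 2 * (M + 1) = k + 2 * M + 1 + 1 := by ring
    rw [h1, J_succ, J_succ]
    set L := k + 2 * M with hL
    have h2 := h_add L
    have h3 := h_add (L + 1)
    have hs : (-1 : ℤ⟦X⟧) ^ k * (-1) ^ L = 1 := by
      rw [hL, ← pow_add]
      have : k + (k + 2 * M) = 2 * (k + M) := by ring
      rw [this, pow_mul]
      simp
    have h4 : (-1 : ℤ⟦X⟧) ^ k * (J L + (-1) ^ (L + 1) * (2 * (L : ℤ⟦X⟧) + 3) * X ^ T (L + 1)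
        + (-1) ^ (L + 1 + 1) * (2 * ((L + 1 : ℕ) : ℤ⟦X⟧) + 3) * X ^ T (L + 1 + 1)) * P
        = (-1) ^ k * J L * P - (2 * (L : ℤ⟦X⟧) + 3) * (h L + h (L + 1))
          + (2 * (L : ℤ⟦X⟧) + 5) * (h (L + 1) + h (L + 1 + 1)) := by
      rw [h2, h3]
      push_cast
      calc _ = (-1 : ℤ⟦X⟧) ^ k * J L * P
            - ((-1 : ℤ⟦X⟧) ^ k * (-1) ^ L) * (2 * (L : ℤ⟦X⟧) + 3) * (X ^ T (L + 1) * P)
            + ((-1 : ℤ⟦X⟧) ^ k * (-1) ^ L) * (2 * (L : ℤ⟦X⟧) + 5) * (X ^ T (L + 1 + 1) * P) := by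
            ring
        _ = _ := by rw [hs]; ring
    rw [h4, ih]
    have h5 : (L : ℤ⟦X⟧) = (k : ℤ⟦X⟧) + 2 * (M : ℤ⟦X⟧) := by rw [hL]; push_cast; ring
    rw [h5]
    push_cast
    ring

theorem coeff_P (n : ℕ) : coeff n P = (Fintype.card (Nat.Partition n) : ℤ) := by
  unfold P
  rw [coeff_mk]

theorem coeff_zero_P : coeff 0 P = 1 := by
  rw [coeff_P_eq, r_zero]; simp

theorem coeff_le_mul (f g : ℤ⟦X⟧) (hf : NN f) (hg : NN g) (hg0 : 1 ≤ coeff 0 g) (n : ℕ) :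
    coeff n f ≤ coeff n (f * g) := by
  rw [coeff_mul]
  have h1 : (n, 0) ∈ antidiagonal n := by simp
  have h2 : coeff n f * coeff 0 g ≤ ∑ p ∈ antidiagonal n, coeff p.1 f * coeff p.2 g :=
    Finset.single_le_sum (f := fun p : ℕ × ℕ => coeff p.1 f * coeff p.2 g)
      (fun p _ => mul_nonneg (hf _) (hg _)) h1
  have h3 := hf n
  nlinarith

theorem NN_h (j : ℕ) : NN (h j) := (NN.X_pow _).mul (NN_G _)

theorem NN_P2 : NN (P ^ 2) := by rw [pow_two]; exact NN.P.mul NN.P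

theorem NN_natCast_mul (k : ℕ) {f : ℤ⟦X⟧} (hf : NN f) : NN ((k : ℤ⟦X⟧) * f) := by
  intro n
  have : (k : ℤ⟦X⟧) * f = C (k : ℤ) * f := by simp
  rw [this, coeff_C_mul]
  exact mul_nonneg (by positivity) (hf n)

/-- Main formula for the coefficient. -/
theorem coeff_main (n k : ℕ) (hn : 1 ≤ n) :
    coeff n ((-1) ^ k * J k * P ^ 3) = coeff n (((2 * k + 1 : ℕ) : ℤ⟦X⟧) * h k * P ^ 2
      + 2 * (∑ i ∈ range (n + 1), (h (k + 2 * i) - h (k + 2 * i + 1))) * P ^ 2) := by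
  have h1 := J_telescope k (n + 1)
  set L := k + 2 * (n + 1) with hL
  have h2 : (-1) ^ k * J k * P ^ 3 = (((2 * k + 1 : ℕ) : ℤ⟦X⟧) * h k * P ^ 2
      + 2 * (∑ i ∈ range (n + 1), (h (k + 2 * i) - h (k + 2 * i + 1))) * P ^ 2)
      + ((-1) ^ k * (J L * P ^ 3 - 1) + (-1) ^ k
        - (2 * ((k : ℤ⟦X⟧) + 2 * ((n + 1 : ℕ) : ℤ⟦X⟧)) + 1) * h L * P ^ 2) := by
    calc (-1) ^ k * J k * P ^ 3 = ((-1) ^ k * J k * P) * P ^ 2 := by ring
      _ = _ := by rw [h1]; push_cast; ring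
  rw [h2, map_add]
  have h3 : coeff n ((-1) ^ k * (J L * P ^ 3 - 1) + (-1) ^ k
        - (2 * ((k : ℤ⟦X⟧) + 2 * ((n + 1 : ℕ) : ℤ⟦X⟧)) + 1) * h L * P ^ 2) = 0 := by
    rw [map_sub, map_add]
    have h4 : coeff n ((-1 : ℤ⟦X⟧) ^ k * (J L * P ^ 3 - 1)) = 0 :=
      coeff_zero_of_dvd (N := L + 1) (dvd_mul_of_dvd_right (jacobi L) _) (by omega)
    have h5 : coeff n ((-1 : ℤ⟦X⟧) ^ k) = 0 := by
      rcases neg_one_pow_eq_or ℤ⟦X⟧ k with h | h
      · rw [h, coeff_one, if_neg (by omega)]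
      · rw [h, map_neg, coeff_one, if_neg (by omega), neg_zero]
    have h6 : coeff n ((2 * ((k : ℤ⟦X⟧) + 2 * ((n + 1 : ℕ) : ℤ⟦X⟧)) + 1) * h L * P ^ 2) = 0 := by
      apply coeff_zero_of_dvd (N := T L)
      · have : (2 * ((k : ℤ⟦X⟧) + 2 * ((n + 1 : ℕ) : ℤ⟦X⟧)) + 1) * h L * P ^ 2
          = X ^ (T L) * ((2 * ((k : ℤ⟦X⟧) + 2 * ((n + 1 : ℕ) : ℤ⟦X⟧)) + 1) * G (L + 1) * P ^ 2) := by
          rw [h]; ring
        rw [this]
        exact dvd_mul_right _ _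
      · have := le_T L
        omega
    rw [h4, h5, h6]
    norm_num
  rw [h3, add_zero]

theorem main_nonneg (n k : ℕ) (hn : 1 ≤ n) : 0 ≤ coeff n ((-1) ^ k * J k * P ^ 3) := by
  rw [coeff_main n k hn]
  have h1 : NN (((2 * k + 1 : ℕ) : ℤ⟦X⟧) * h k * P ^ 2) :=
    (NN_natCast_mul _ (NN_h k)).mul NN_P2
  have h2 : NN ((2 * (∑ i ∈ range (n + 1), (h (k + 2 * i) - h (k + 2 * i + 1)))) * P ^ 2) := by
    have := NN_natCast_mul 2 (NN.sum (s := range (n + 1))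
      (f := fun i => h (k + 2 * i) - h (k + 2 * i + 1)) fun i _ => NN_h_sub (k + 2 * i))
    push_cast at this
    exact this.mul NN_P2
  exact (h1.add h2) n

theorem main_pos (n k : ℕ) (hn : 1 ≤ n) (hk : T (k + 1) ≤ n) :
    0 < coeff n ((-1) ^ k * J k * P ^ 3) := by
  rw [coeff_main n k hn, map_add]
  have h2 : NN ((2 * (∑ i ∈ range (n + 1), (h (k + 2 * i) - h (k + 2 * i + 1)))) * P ^ 2) := by
    have := NN_natCast_mul 2 (NN.sum (s := range (n + 1))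
      (f := fun i => h (k + 2 * i) - h (k + 2 * i + 1)) fun i _ => NN_h_sub (k + 2 * i))
    push_cast at this
    exact this.mul NN_P2
  have h3 := h2 n
  have h4 : 1 ≤ coeff n (h k) := by
    have h5 : h k + h k = X ^ (T (k + 1)) * P + (h k - h (k + 1)) := by
      rw [← h_add k]; ring
    have h6 : coeff n (h k) + coeff n (h k)
        = coeff n (X ^ (T (k + 1)) * P) + coeff n (h k - h (k + 1)) := by
      rw [← map_add, h5, map_add]
    rw [coeff_X_pow_mul', if_pos hk, coeff_P] at h6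
    have h7 := NN_h_sub k n
    have h8 : (0 : ℤ) < (Fintype.card (Nat.Partition (n - T (k + 1))) : ℤ) := by
      exact_mod_cast Fintype.card_pos
    omega
  have h9 : coeff n (h k) ≤ coeff n (h k * P ^ 2) := by
    apply coeff_le_mul _ _ (NN_h k) NN_P2
    have : coeff 0 (P ^ 2) = 1 := by
      rw [pow_two, coeff_mul]
      simp [coeff_zero_P]
    rw [this]
  have h10 : coeff n (((2 * k + 1 : ℕ) : ℤ⟦X⟧) * h k * P ^ 2)
      = ((2 * k + 1 : ℕ) : ℤ) * coeff n (h k * P ^ 2) := by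
    have : ((2 * k + 1 : ℕ) : ℤ⟦X⟧) * h k * P ^ 2 = C ((2 * k + 1 : ℕ) : ℤ) * (h k * P ^ 2) := by
      simp [mul_assoc]
    rw [this, coeff_C_mul]
  rw [h10]
  push_cast
  nlinarith

/-- The convolution cube of the partition numbers. -/
theorem coeff_P_cube (m : ℕ) : coeff m (P ^ 3) = ∑ x ∈ Finset.Nat.antidiagonalTuple 3 m,
    ∏ i : Fin 3, (Fintype.card (Nat.Partition (x i)) : ℤ) := by
  have h1 : P ^ 3 = ∏ _i : Fin 3, P := by simp
  rw [h1, coeff_prod]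
  refine Finset.sum_nbij' (fun l => (l : Fin 3 → ℕ)) (fun x => Finsupp.equivFunOnFinite.symm x)
    ?_ ?_ ?_ ?_ ?_
  · intro l hl
    rw [Finset.mem_finsuppAntidiag] at hl
    rw [Finset.Nat.mem_antidiagonalTuple]
    exact hl.1
  · intro x hx
    rw [Finset.Nat.mem_antidiagonalTuple] at hx
    rw [Finset.mem_finsuppAntidiag]
    exact ⟨hx, Finset.subset_univ _⟩
  · intro l _
    exact Finsupp.equivFunOnFinite.symm_apply_apply l
  · intro x _
    rfl
  · intro l _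
    simp [P]

theorem coeff_J_mul (t : ℕ → ℤ) (ht : ∀ m, t m = coeff m (P ^ 3)) (n k : ℕ) :
    coeff n ((-1) ^ k * J k * P ^ 3) = (-1 : ℤ) ^ k * ∑ j ∈ Finset.range (k + 1),
      (-1 : ℤ) ^ j * (2 * (j : ℤ) + 1) *
        (if j * (j + 1) / 2 ≤ n then t (n - j * (j + 1) / 2) else 0) := by
  have h1 : (-1) ^ k * J k * P ^ 3 = C ((-1 : ℤ) ^ k) * ∑ j ∈ range (k + 1),
      C ((-1 : ℤ) ^ j * (2 * (j : ℤ) + 1)) * (X ^ (T j) * P ^ 3) := by
    rw [J, mul_assoc, Finset.sum_mul]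
    simp only [map_mul, map_pow, map_neg, map_one, map_add]
    congr 1
    apply Finset.sum_congr rfl
    intro j _
    simp
    ring
  rw [h1, coeff_C_mul, map_sum]
  congr 1
  apply Finset.sum_congr rfl
  intro j _
  rw [coeff_C_mul, coeff_X_pow_mul', T]
  split_ifs with h2
  · rw [ht]
  · rfl

/-- Truncated Jacobi cube sums for partitions into three colours. -/
theorem result :
    ∀ t : ℕ → ℤ,
      (∀ m : ℕ, t m = ∑ x ∈ Finset.Nat.antidiagonalTuple 3 m,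
          ∏ i : Fin 3, (Fintype.card (Nat.Partition (x i)) : ℤ)) →
      ∀ n k : ℕ, 1 ≤ n → 1 ≤ k →
        (0 ≤ (-1 : ℤ) ^ k * ∑ j ∈ Finset.range (k + 1),
            (-1 : ℤ) ^ j * (2 * (j : ℤ) + 1) *
              (if j * (j + 1) / 2 ≤ n then t (n - j * (j + 1) / 2) else 0)) ∧
        ((k + 1) * (k + 2) / 2 ≤ n →
          0 < (-1 : ℤ) ^ k * ∑ j ∈ Finset.range (k + 1),
            (-1 : ℤ) ^ j * (2 * (j : ℤ) + 1) *
              (if j * (j + 1) / 2 ≤ n then t (n - j * (j + 1) / 2) else 0)) := by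
  intro t ht n k hn _
  have ht' : ∀ m, t m = coeff m (P ^ 3) := fun m => by rw [ht, coeff_P_cube]
  rw [← coeff_J_mul t ht' n k]
  exact ⟨main_nonneg n k hn, fun h => main_pos n k hn h⟩

end Pool.Agent.TH402.TJ
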